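import Pool.Agent.Lib.MP_a9a507_gt.BlockIsotopy

/-!
# Block-symmetric monotone tori reduce to products of smaller projective spaces

`b : ι → κ'` are the fine blocks of coordinates, `c : κ' → κ` groups them to the coarse blocks; the
ambient space is the product over `κ` of the projective spaces of the coarse blocks. The torus is
swept out from a slice `G` by all rotations of the fine blocks. Then `G` is a monotone Lagrangian
torus in the product over `κ'` of the (smaller) projective spaces of the fine blocks, and every
Hamiltonian isotopy of `G` there which pushes, for every coarse block, one of its fine blocks off a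
hyperplane, shows that the swept torus is local.
-/

namespace Pool.Agent.Results.MP_a9a507_gt.BlockSymmetry

open Pool.Agent.Lib.MP_a9a507_gt

/-- The slice of a block-symmetric monotone Lagrangian torus is a monotone Lagrangian torus of the
product of the fine blocks, and locality of the slice gives locality of the torus. -/
theorem result (ι κ κ' ρ σ : Type) [Fintype ι] [DecidableEq ι] [Fintype κ] [DecidableEq κ]
    [Fintype κ'] [DecidableEq κ'] [Fintype ρ] [DecidableEq ρ] [Fintype σ] [DecidableEq σ]
    (b : ι → κ') (c : κ' → κ) (w : ρ → κ' → ℝ) (e' : κ' ⊕ σ ≃ ι) (e : κ ⊕ (ρ ⊕ σ) ≃ ι)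
    (τ₀ : ℝ) (G : (σ → ℝ) → ι → ℂ) (hb : Function.Surjective b)
    (hF : IsMonotoneTorus (c ∘ b) τ₀ e (wsweep (blockWt b w) G)) :
    IsMonotoneTorus b τ₀ e' G ∧
    ∀ H : ℝ → (σ → ℝ) → ι → ℂ, IsHamIsotopy b (fun l => τ₀ * size b l) e' H → H 0 = G →
      (∀ k, ∃ l, c l = k ∧ MissesHyperplane b l (H 1)) →
      IsLocal (c ∘ b) (fun k => τ₀ * size (c ∘ b) k) e (wsweep (blockWt b w) G) :=
  ⟨isMonotoneTorus_slice b c w e' e τ₀ hF,
    fun H hH h0 hm => isLocal_block b c w hb e' e τ₀ hF H hH h0 hm⟩

end Pool.Agent.Results.MP_a9a507_gt.BlockSymmetry
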