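import Pool.Agent.Lib.MP_a9a507_gt.Circle

/-!
# Monotone tori of `ℂPⁿ` symmetric under a circle with all weights but two equal

The torus is given by a lift (see `Pool/Agent/Lib/MP_a9a507_gt/Defs.lean`), swept out from a slice
`G` by the circle `z_l ↦ exp (2πi (w l) s) z_l`, where `w l = c₀` for all `l` but `p`, `m`. If
`w p ≠ w m` it misses a coordinate hyperplane. In general it is local if all monotone tori of
`ℂP¹ × ℂP^(n-2)` are; for `n = 3` this is the known case of `ℂP¹ × ℂP¹`.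
-/

namespace Pool.Agent.Results.MP_a9a507_gt.CircleSymmetry

open Pool.Agent.Lib.MP_a9a507_gt

/-- A monotone Lagrangian torus of `ℂPⁿ`, `n ≥ 2`, swept out by a circle with all weights but those
at `p`, `m` equal, lies in the affine part if these two differ, and is local if all monotone
Lagrangian tori of `ℂP¹ × ℂP^(n-2)` (the product for the blocks `{p, m}` and the rest) are. -/
theorem result (ι σ : Type) [Fintype ι] [DecidableEq ι] [Fintype σ] [DecidableEq σ] (p m : ι)
    (_hpm : p ≠ m) (h3 : 2 < Fintype.card ι) (e : Unit ⊕ (Unit ⊕ σ) ≃ ι) (τ₀ : ℝ)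
    (w : Unit → ι → ℝ) (c₀ : ℝ) (hw : ∀ l, l ≠ p → l ≠ m → w () l = c₀) (G : (σ → ℝ) → ι → ℂ)
    (hF : IsMonotoneTorus (fun _ => ()) τ₀ e (wsweep w G)) :
    (w () p ≠ w () m → ∃ i, ∀ x, wsweep w G x i ≠ 0) ∧
    ((∀ (τ₁ : ℝ) (e' : Bool ⊕ σ ≃ ι) (G' : (σ → ℝ) → ι → ℂ),
        IsMonotoneTorus (pairBlocks p m) τ₁ e' G' →
          IsLocal (pairBlocks p m) (fun l => τ₁ * size (pairBlocks p m) l) e' G') →
      IsLocal (fun _ => ()) (fun k => τ₀ * size (fun _ : ι => ()) k) e (wsweep w G)) :=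
  ⟨fun hne => circle_two e τ₀ w hF p m c₀ hw hne,
    fun hQ => circle_local h3 p m hQ e τ₀ w c₀ hw G hF⟩

end Pool.Agent.Results.MP_a9a507_gt.CircleSymmetry
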