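import Pool.Agent.Lib.MP_a9a507_gt.ToricLocal

/-!
# Monotone tori with an (n-1)-dimensional torus of diagonal symmetries lie in the affine part

The torus is given by a lift (see `Pool/Agent/Lib/MP_a9a507_gt/Defs.lean`); it is swept out from a
closed curve `G` by the rotations `z_i ↦ exp (2πi ∑_a w a i s_a) z_i` with arbitrary real weights
`w`. In every factor of the product of projective spaces it misses a hyperplane, so it lies in the
affine part; in particular it is local.
-/

namespace Pool.Agent.Results.MP_a9a507_gt.ToricSymmetry

open Pool.Agent.Lib.MP_a9a507_gt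

/-- Let `n` be the complex dimension of the product of the projective spaces of the blocks of `b`.
A monotone Lagrangian torus swept out from a curve by an `(n-1)`-dimensional torus of diagonal
rotations lies off a hyperplane in every factor, and is local. -/
theorem result (ι κ ρ : Type) [Fintype ι] [DecidableEq ι] [Fintype κ] [DecidableEq κ] [Fintype ρ]
    [DecidableEq ρ] (b : ι → κ) (e : κ ⊕ (ρ ⊕ Unit) ≃ ι) (τ₀ : ℝ) (w : ρ → ι → ℝ)
    (G : (Unit → ℝ) → ι → ℂ) (hF : IsMonotoneTorus b τ₀ e (wsweep w G)) :
    (∀ k, MissesHyperplane b k (wsweep w G)) ∧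
      IsLocal b (fun k => τ₀ * size b k) e (wsweep w G) :=
  ⟨fun k => toric_misses b e w τ₀ hF k,
    isLocal_of_misses _ _ e hF.torus fun k => toric_misses b e w τ₀ hF k⟩

end Pool.Agent.Results.MP_a9a507_gt.ToricSymmetry
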